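import Mathlib

/-!
# A simple infinite-dimensional noncommutative Jordan algebra with `([x,y],y,y) = 0`

Over every field `F` of characteristic not two there is a simple unital `F`-algebra of infinite
dimension which is noncommutative Jordan, satisfies `([x,y],y,y) = 0`, and is neither alternative
nor a Jordan algebra.

For a field `K` let `Alg K = K ⊕ K³ ⊕ K³` with the product
`(s,a,b)(s',a',b') = (ss' - a·b' - b·a', s a' + s' a + 2 b × b', s b' + s' b + a × a')`.
It is a simple algebra of dimension seven over `K`.  For an extension `K / F` of infinite degree it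
is a simple `F`-algebra of infinite dimension.
-/

set_option autoImplicit false

namespace Pool.Agent.Results.MP_52e257_al.InfiniteDimensional

/-- noncommutative Jordan algebra: `(x,y,x) = 0` and `(x²,y,x) = 0` -/
def IsNCJordan (A : Type) [NonUnitalNonAssocRing A] : Prop :=
  (∀ x y : A, (x * y) * x = x * (y * x)) ∧ ∀ x y : A, ((x * x) * y) * x = (x * x) * (y * x)

/-- the identity `([x,y],y,y) = 0` -/
def CommIdentity (A : Type) [NonUnitalNonAssocRing A] : Prop :=
  ∀ x y : A, ((x * y - y * x) * y) * y = (x * y - y * x) * (y * y)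

/-- alternative algebra: `(x,x,y) = 0 = (y,x,x)` -/
def IsAlternative (A : Type) [NonUnitalNonAssocRing A] : Prop :=
  ∀ x y : A, (x * x) * y = x * (x * y) ∧ (y * x) * x = y * (x * x)

/-- Jordan algebra: commutative and `(x²,y,x) = 0` -/
def IsJordanAlg (A : Type) [NonUnitalNonAssocRing A] : Prop :=
  (∀ x y : A, x * y = y * x) ∧ ∀ x y : A, ((x * x) * y) * x = (x * x) * (y * x)

/-- simple algebra over `F`: `A² ≠ 0` and the only two-sided ideals are `0` and `A` -/
def IsSimpleAlg (F A : Type) [Field F] [NonUnitalNonAssocRing A] [Module F A] : Prop :=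
  (∃ x y : A, x * y ≠ 0) ∧
    ∀ I : Submodule F A, (∀ a ∈ I, ∀ x : A, x * a ∈ I ∧ a * x ∈ I) → I = ⊥ ∨ I = ⊤

/-- The underlying space `K ⊕ K³ ⊕ K³` (coordinates `0`, `1 2 3`, `4 5 6`). -/
def Alg (K : Type) : Type := Fin 7 → K

namespace Alg

variable {K : Type} [Field K]

instance : AddCommGroup (Alg K) := inferInstanceAs (AddCommGroup (Fin 7 → K))

instance {F : Type} [Field F] [Algebra F K] : Module F (Alg K) :=
  inferInstanceAs (Module F (Fin 7 → K))

/-- the product -/
def mul (x y : Alg K) : Alg K :=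
  ![x 0 * y 0 - (x 1 * y 4 + x 2 * y 5 + x 3 * y 6) - (x 4 * y 1 + x 5 * y 2 + x 6 * y 3),
    x 0 * y 1 + x 1 * y 0 + 2 * (x 5 * y 6 - x 6 * y 5),
    x 0 * y 2 + x 2 * y 0 + 2 * (x 6 * y 4 - x 4 * y 6),
    x 0 * y 3 + x 3 * y 0 + 2 * (x 4 * y 5 - x 5 * y 4),
    x 0 * y 4 + x 4 * y 0 + (x 2 * y 3 - x 3 * y 2),
    x 0 * y 5 + x 5 * y 0 + (x 3 * y 1 - x 1 * y 3),
    x 0 * y 6 + x 6 * y 0 + (x 1 * y 2 - x 2 * y 1)]

instance : Mul (Alg K) := ⟨mul⟩

instance : One (Alg K) := ⟨![1, 0, 0, 0, 0, 0, 0]⟩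

omit [Field K] in
theorem ext7 {x y : Alg K} (h0 : x 0 = y 0) (h1 : x 1 = y 1) (h2 : x 2 = y 2) (h3 : x 3 = y 3)
    (h4 : x 4 = y 4) (h5 : x 5 = y 5) (h6 : x 6 = y 6) : x = y := by
  funext i
  fin_cases i <;> assumption

theorem mul_0 (x y : Alg K) : (x * y) 0 =
    x 0 * y 0 - (x 1 * y 4 + x 2 * y 5 + x 3 * y 6) - (x 4 * y 1 + x 5 * y 2 + x 6 * y 3) := rfl
theorem mul_1 (x y : Alg K) : (x * y) 1 = x 0 * y 1 + x 1 * y 0 + 2 * (x 5 * y 6 - x 6 * y 5) := rfl
theorem mul_2 (x y : Alg K) : (x * y) 2 = x 0 * y 2 + x 2 * y 0 + 2 * (x 6 * y 4 - x 4 * y 6) := rfl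
theorem mul_3 (x y : Alg K) : (x * y) 3 = x 0 * y 3 + x 3 * y 0 + 2 * (x 4 * y 5 - x 5 * y 4) := rfl
theorem mul_4 (x y : Alg K) : (x * y) 4 = x 0 * y 4 + x 4 * y 0 + (x 2 * y 3 - x 3 * y 2) := rfl
theorem mul_5 (x y : Alg K) : (x * y) 5 = x 0 * y 5 + x 5 * y 0 + (x 3 * y 1 - x 1 * y 3) := rfl
theorem mul_6 (x y : Alg K) : (x * y) 6 = x 0 * y 6 + x 6 * y 0 + (x 1 * y 2 - x 2 * y 1) := rfl

theorem add_a (x y : Alg K) (i : Fin 7) : (x + y) i = x i + y i := rfl
theorem sub_a (x y : Alg K) (i : Fin 7) : (x - y) i = x i - y i := rfl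
theorem zero_a (i : Fin 7) : (0 : Alg K) i = 0 := rfl
theorem smul_a {F : Type} [Field F] [Algebra F K] (c : F) (x : Alg K) (i : Fin 7) :
    (c • x) i = c • x i := rfl
theorem one_0 : (1 : Alg K) 0 = 1 := rfl
theorem one_1 : (1 : Alg K) 1 = 0 := rfl
theorem one_2 : (1 : Alg K) 2 = 0 := rfl
theorem one_3 : (1 : Alg K) 3 = 0 := rfl
theorem one_4 : (1 : Alg K) 4 = 0 := rfl
theorem one_5 : (1 : Alg K) 5 = 0 := rfl
theorem one_6 : (1 : Alg K) 6 = 0 := rfl

instance : NonAssocRing (Alg K) :=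
  { (inferInstance : AddCommGroup (Alg K)), (inferInstance : Mul (Alg K)),
    (inferInstance : One (Alg K)) with
    left_distrib := fun x y z => by
      apply ext7 <;> simp only [mul_0, mul_1, mul_2, mul_3, mul_4, mul_5, mul_6, add_a] <;> ring
    right_distrib := fun x y z => by
      apply ext7 <;> simp only [mul_0, mul_1, mul_2, mul_3, mul_4, mul_5, mul_6, add_a] <;> ring
    zero_mul := fun x => by
      apply ext7 <;> simp only [mul_0, mul_1, mul_2, mul_3, mul_4, mul_5, mul_6, zero_a] <;> ring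
    mul_zero := fun x => by
      apply ext7 <;> simp only [mul_0, mul_1, mul_2, mul_3, mul_4, mul_5, mul_6, zero_a] <;> ring
    one_mul := fun x => by
      apply ext7 <;> simp only [mul_0, mul_1, mul_2, mul_3, mul_4, mul_5, mul_6, one_0, one_1,
        one_2, one_3, one_4, one_5, one_6] <;> ring
    mul_one := fun x => by
      apply ext7 <;> simp only [mul_0, mul_1, mul_2, mul_3, mul_4, mul_5, mul_6, one_0, one_1,
        one_2, one_3, one_4, one_5, one_6] <;> ring }

variable {F : Type} [Field F] [Algebra F K]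

instance : IsScalarTower F (Alg K) (Alg K) := ⟨fun c x y => by
  apply ext7 <;> simp only [smul_eq_mul, mul_0, mul_1, mul_2, mul_3, mul_4, mul_5, mul_6, smul_a,
    Algebra.smul_def] <;> ring⟩

instance : SMulCommClass F (Alg K) (Alg K) := ⟨fun c x y => by
  apply ext7 <;> simp only [smul_eq_mul, mul_0, mul_1, mul_2, mul_3, mul_4, mul_5, mul_6, smul_a,
    Algebra.smul_def] <;> ring⟩

theorem flexible (x y : Alg K) : (x * y) * x = x * (y * x) := by
  apply ext7 <;> simp only [mul_0, mul_1, mul_2, mul_3, mul_4, mul_5, mul_6] <;> ring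

theorem commIdentity : CommIdentity (Alg K) := by
  intro x y
  apply ext7 <;> simp only [mul_0, mul_1, mul_2, mul_3, mul_4, mul_5, mul_6, sub_a] <;> ring

theorem jordan (x y : Alg K) : ((x * x) * y) * x = (x * x) * (y * x) := by
  have hx : x * x = (2 * x 0) • x - (x 0 * x 0 + 2 * (x 1 * x 4 + x 2 * x 5 + x 3 * x 6)) •
      (1 : Alg K) := by
    apply ext7 <;> simp only [mul_0, mul_1, mul_2, mul_3, mul_4, mul_5, mul_6, sub_a, smul_a,
      one_0, one_1, one_2, one_3, one_4, one_5, one_6, smul_eq_mul] <;> ring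
  rw [hx, sub_mul, sub_mul, sub_mul, smul_mul_assoc, smul_mul_assoc, smul_mul_assoc,
    smul_mul_assoc, smul_mul_assoc, smul_mul_assoc, one_mul, one_mul, flexible]

/-- the scalar `k` -/
def sc (k : K) : Alg K := ![k, 0, 0, 0, 0, 0, 0]

/-- `k` times the first basis vector of the first copy of `K³` -/
def e1 (k : K) : Alg K := ![0, k, 0, 0, 0, 0, 0]

/-- basis vector -/
def e2 : Alg K := ![0, 0, 1, 0, 0, 0, 0]
/-- basis vector -/
def e3 : Alg K := ![0, 0, 0, 1, 0, 0, 0]
/-- basis vector -/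
def e4 : Alg K := ![0, 0, 0, 0, 1, 0, 0]
/-- basis vector -/
def e5 : Alg K := ![0, 0, 0, 0, 0, 1, 0]
/-- basis vector -/
def e6 : Alg K := ![0, 0, 0, 0, 0, 0, 1]

theorem top_of_sc (I : Submodule F (Alg K)) (hI : ∀ a ∈ I, ∀ x : Alg K, x * a ∈ I ∧ a * x ∈ I)
    {k : K} (hk : k ≠ 0) (h : sc k ∈ I) : I = ⊤ := by
  have h1 : (1 : Alg K) ∈ I := by
    have h2 := (hI _ h (sc k⁻¹)).1
    have h3 : sc k⁻¹ * sc k = (1 : Alg K) := by
      (apply ext7 <;> (simp only [mul_0, mul_1, mul_2, mul_3, mul_4, mul_5, mul_6, add_a,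
        one_0, one_1, one_2, one_3, one_4, one_5, one_6]; simp [sc, e1, e2, e3, e4, e5, e6]))
      exact inv_mul_cancel₀ hk
    rwa [h3] at h2
  rw [Submodule.eq_top_iff']
  intro x
  have h4 := (hI _ h1 x).1
  rwa [mul_one] at h4

theorem top_of_e1 (h2 : (2 : K) ≠ 0) (I : Submodule F (Alg K))
    (hI : ∀ a ∈ I, ∀ x : Alg K, x * a ∈ I ∧ a * x ∈ I)
    {k : K} (hk : k ≠ 0) (h : e1 k ∈ I) : I = ⊤ := by
  have h3 : e1 k * e4 + e4 * e1 k ∈ I := I.add_mem (hI _ h e4).2 (hI _ h e4).1
  have h4 : e1 k * e4 + e4 * e1 k = sc (-2 * k) := by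
    (apply ext7 <;> (simp only [mul_0, mul_1, mul_2, mul_3, mul_4, mul_5, mul_6, add_a,
      one_0, one_1, one_2, one_3, one_4, one_5, one_6]; simp [sc, e1, e2, e3, e4, e5, e6]))
    ring
  rw [h4] at h3
  exact top_of_sc I hI (mul_ne_zero (neg_ne_zero.2 h2) hk) h3

theorem simple (h2 : (2 : K) ≠ 0) : IsSimpleAlg F (Alg K) := by
  refine ⟨⟨1, 1, ?_⟩, ?_⟩
  · rw [mul_one]
    intro h
    have := congrFun h 0
    rw [one_0, zero_a] at this
    exact one_ne_zero this
  · intro I hI
    by_cases hb : I = ⊥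
    · exact Or.inl hb
    right
    obtain ⟨x, hx, hx0⟩ := (Submodule.ne_bot_iff I).1 hb
    have hm2 : (-2 : K) ≠ 0 := neg_ne_zero.2 h2
    by_cases hs : x 0 = 0
    · have key : ∀ (e : Alg K) (k : K), k ≠ 0 → x * e + e * x = sc (-2 * k) → I = ⊤ := by
        intro e k hk he
        have h3 : x * e + e * x ∈ I := I.add_mem (hI _ hx e).2 (hI _ hx e).1
        rw [he] at h3
        exact top_of_sc I hI (mul_ne_zero hm2 hk) h3
      by_cases h1 : x 1 = 0
      · by_cases h22 : x 2 = 0
        · by_cases h3 : x 3 = 0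
          · by_cases h4 : x 4 = 0
            · by_cases h5 : x 5 = 0
              · by_cases h6 : x 6 = 0
                · exact absurd (ext7 hs h1 h22 h3 h4 h5 h6) hx0
                · refine key e3 (x 6) h6 ?_
                  (apply ext7 <;> (simp only [mul_0, mul_1, mul_2, mul_3, mul_4, mul_5, mul_6, add_a,
                    one_0, one_1, one_2, one_3, one_4, one_5, one_6]; simp [sc, e1, e2, e3, e4, e5, e6])) <;> (try rw [hs]) <;> ring
              · refine key e2 (x 5) h5 ?_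
                (apply ext7 <;> (simp only [mul_0, mul_1, mul_2, mul_3, mul_4, mul_5, mul_6, add_a,
                  one_0, one_1, one_2, one_3, one_4, one_5, one_6]; simp [sc, e1, e2, e3, e4, e5, e6])) <;> (try rw [hs]) <;> ring
            · refine key (e1 1) (x 4) h4 ?_
              (apply ext7 <;> (simp only [mul_0, mul_1, mul_2, mul_3, mul_4, mul_5, mul_6, add_a,
                one_0, one_1, one_2, one_3, one_4, one_5, one_6]; simp [sc, e1, e2, e3, e4, e5, e6])) <;> (try rw [hs]) <;> ring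
          · refine key e6 (x 3) h3 ?_
            (apply ext7 <;> (simp only [mul_0, mul_1, mul_2, mul_3, mul_4, mul_5, mul_6, add_a,
              one_0, one_1, one_2, one_3, one_4, one_5, one_6]; simp [sc, e1, e2, e3, e4, e5, e6])) <;> (try rw [hs]) <;> ring
        · refine key e5 (x 2) h22 ?_
          (apply ext7 <;> (simp only [mul_0, mul_1, mul_2, mul_3, mul_4, mul_5, mul_6, add_a,
            one_0, one_1, one_2, one_3, one_4, one_5, one_6]; simp [sc, e1, e2, e3, e4, e5, e6])) <;> (try rw [hs]) <;> ring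
      · refine key e4 (x 1) h1 ?_
        (apply ext7 <;> (simp only [mul_0, mul_1, mul_2, mul_3, mul_4, mul_5, mul_6, add_a,
          one_0, one_1, one_2, one_3, one_4, one_5, one_6]; simp [sc, e1, e2, e3, e4, e5, e6])) <;> (try rw [hs]) <;> ring
    · have h3 : x * e1 1 + e1 1 * x ∈ I := I.add_mem (hI _ hx _).2 (hI _ hx _).1
      by_cases h4 : x 4 = 0
      · have h5 : x * e1 1 + e1 1 * x = e1 (2 * x 0) := by
          (apply ext7 <;> (simp only [mul_0, mul_1, mul_2, mul_3, mul_4, mul_5, mul_6, add_a,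
            one_0, one_1, one_2, one_3, one_4, one_5, one_6]; simp [sc, e1, e2, e3, e4, e5, e6])) <;> (try rw [h4]) <;> ring
        rw [h5] at h3
        exact top_of_e1 h2 I hI (mul_ne_zero h2 hs) h3
      · have h6 : (x * e1 1 + e1 1 * x) * e1 1 + e1 1 * (x * e1 1 + e1 1 * x) ∈ I :=
          I.add_mem (hI _ h3 _).2 (hI _ h3 _).1
        have h7 : (x * e1 1 + e1 1 * x) * e1 1 + e1 1 * (x * e1 1 + e1 1 * x) =
            e1 (-(2 * 2) * x 4) := by
          (apply ext7 <;> (simp only [mul_0, mul_1, mul_2, mul_3, mul_4, mul_5, mul_6, add_a,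
            one_0, one_1, one_2, one_3, one_4, one_5, one_6]; simp [sc, e1, e2, e3, e4, e5, e6]))
          ring
        rw [h7] at h6
        exact top_of_e1 h2 I hI (mul_ne_zero (neg_ne_zero.2 (mul_ne_zero h2 h2)) h4) h6

theorem not_finite (h : ¬ Module.Finite F K) : ¬ Module.Finite F (Alg K) := by
  intro hA
  have hA' : Module.Finite F (Fin 7 → K) := hA
  exact h (Module.Finite.of_surjective (LinearMap.proj 0 : (Fin 7 → K) →ₗ[F] K)
    (fun k => ⟨sc k, rfl⟩))

theorem not_alternative : ¬ IsAlternative (Alg K) := by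
  intro h
  have h1 := congrFun (h (e1 1) e4).2 1
  simp only [mul_0, mul_1, mul_2, mul_3, mul_4, mul_5, mul_6] at h1
  simp [e1, e4] at h1

theorem not_comm (h2 : (2 : K) ≠ 0) : ¬ IsJordanAlg (Alg K) := by
  intro h
  have h1 := congrFun (h.1 (e1 1) e2) 6
  simp only [mul_6] at h1
  have h3 : (1 : K) = -1 := by
    simpa [e1, e2] using h1
  apply h2
  linear_combination h3

end Alg

/-- Over every field `F` of characteristic not two there is a simple unital `F`-algebra `A` of
infinite dimension which is noncommutative Jordan and satisfies `([x,y],y,y) = 0`, and which is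
neither alternative nor a Jordan algebra. -/
theorem result (F : Type) [Field F] (h2 : (2 : F) ≠ 0) :
    ∃ (A : Type) (_ : NonAssocRing A) (_ : Module F A) (_ : IsScalarTower F A A)
      (_ : SMulCommClass F A A), ¬ Module.Finite F A ∧ IsSimpleAlg F A ∧ IsNCJordan A ∧
        CommIdentity A ∧ ¬ IsAlternative A ∧ ¬ IsJordanAlg A := by
  have h2' : (2 : RatFunc F) ≠ 0 := by
    have := (map_ne_zero (algebraMap F (RatFunc F))).2 h2
    rwa [map_ofNat] at this
  have hK : ¬ Module.Finite F (RatFunc F) := by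
    intro h
    exact Polynomial.not_finite (R := F) (Module.Finite.of_injective
      (IsScalarTower.toAlgHom F (Polynomial F) (RatFunc F)).toLinearMap
      (RatFunc.algebraMap_injective F))
  exact ⟨Alg (RatFunc F), inferInstance, inferInstance, inferInstance, inferInstance,
    Alg.not_finite hK, Alg.simple h2', ⟨Alg.flexible, Alg.jordan⟩, Alg.commIdentity,
    Alg.not_alternative, Alg.not_comm h2'⟩

end Pool.Agent.Results.MP_52e257_al.InfiniteDimensional
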